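import Pool.Agent.N287.HS.Bridge

set_option autoImplicit false

/-!
# No nonzero Hilbert-Schmidt Hankel operators with conjugate holomorphic symbols
on bounded Reinhardt domains in dimension at least two

The definitions are in `Pool/Agent/N287/HS/ElemDefs.lean`. The value `H_φ g` of the Hankel operator
is described by the relation `IsHankel Ω φ g h`, which determines `h` almost everywhere on `Ω`
(`isHankel_unique` below), and for open `Ω` every `g ∈ A²(Ω)` with `φ g ∈ L²(Ω)` has such an `h`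
(`isHankel_exists` below).
-/

namespace Pool.Agent.Results.MP_dc9318_an.ReinhardtHilbertSchmidt

open MeasureTheory ComplexConjugate
open Pool.Agent.N287.HSE

variable {n : ℕ} {Ω : Set (Fin n → ℂ)}

/-- The Hankel operator is defined on `{g ∈ A²(Ω) : φ g ∈ L²(Ω)}`. -/
theorem isHankel_exists (hΩ : IsOpen Ω) {φ g : (Fin n → ℂ) → ℂ} (hg : InA2 Ω g)
    (hφ : InL2 Ω fun z => φ z * g z) : ∃ h, IsHankel Ω φ g h := by
  have hdom : cl hg ∈ Pool.Agent.N287.HS.hankelDom Ω φ := by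
    refine (memLp_congr_ae ?_).mp hφ
    filter_upwards [cl_ae hg] with z hz
    rw [hz]
  obtain ⟨h, ⟨-, -, h3, ⟨p, hp, hpe⟩, h5⟩, -⟩ := isHankel_of_mem hΩ (cl hg) hdom
  have hrep : rep (cl hg) =ᵐ[volume.restrict Ω] g := (rep_ae (cl hg)).symm.trans (cl_ae hg)
  refine ⟨fun z => φ z * g z - p z, hg, hφ, hφ.sub hp.2, ⟨p, hp, fun z _ => by ring⟩,
    fun q hq => ?_⟩
  rw [← h5 q hq]
  refine ip_congr (Filter.EventuallyEq.refl _ _) ?_
  filter_upwards [hrep, ae_restrict_mem hΩ.measurableSet] with z h1 h2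
  have h6 := hpe z h2
  rw [h1] at h6
  rw [h6]
  ring

/-- The value of the Hankel operator is unique. -/
theorem isHankel_unique {φ g h h' : (Fin n → ℂ) → ℂ} (hΩ : IsOpen Ω) (h1 : IsHankel Ω φ g h)
    (h2 : IsHankel Ω φ g h') : h =ᵐ[volume.restrict Ω] h' := by
  obtain ⟨-, -, a3, ⟨p, hp, hpe⟩, a5⟩ := h1
  obtain ⟨-, -, b3, ⟨q, hq, hqe⟩, b5⟩ := h2
  have hA : InA2 Ω fun w => (-1 : ℂ) * q w + p w := hq.comb hp (-1)
  have e1 := a5 _ hA
  have e2 := b5 _ hA
  set r : (Fin n → ℂ) → ℂ := fun w => (-1 : ℂ) * q w + p w with hr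
  have e3 : ∀ z ∈ Ω, h' z - h z = r z := by
    intro z hz
    have := hpe z hz
    have := hqe z hz
    simp only [hr]
    linear_combination (hqe z hz).symm - (hpe z hz).symm
  have i1 : Integrable (fun z => conj (r z) * h z) (volume.restrict Ω) :=
    (MemLp.star hA.2).integrable_mul a3
  have i2 : Integrable (fun z => conj (r z) * h' z) (volume.restrict Ω) :=
    (MemLp.star hA.2).integrable_mul b3
  have e4 : ((nsq Ω r : ℝ) : ℂ) = 0 := by
    have e5 : ip Ω r h' - ip Ω r h = ((nsq Ω r : ℝ) : ℂ) := by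
      rw [ip, ip, ← integral_sub i2 i1, nsq, ← integral_complex_ofReal]
      refine setIntegral_congr_fun hΩ.measurableSet fun z hz => ?_
      rw [← mul_sub, e3 z hz, ← Complex.normSq_eq_conj_mul_self, Complex.normSq_eq_norm_sq]
    rw [← e5, e1, e2, sub_self]
  have e6 : nsq Ω r = 0 := by exact_mod_cast e4
  filter_upwards [ae_zero_of_nsq hA.2 e6.le, ae_restrict_mem hΩ.measurableSet] with z h1 h2
  have := e3 z h2
  rw [h1, Pi.zero_apply] at this
  exact (sub_eq_zero.mp this).symm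

/-- Let `n ≥ 2`, let `Ω ⊂ ℂⁿ` be a bounded Reinhardt domain and let `f` be holomorphic on `Ω`.
If the Hankel operator with symbol the conjugate of `f` is Hilbert-Schmidt, then `f` is constant
and the Hankel operator is `0`. -/
theorem result (n : ℕ) (hn : 2 ≤ n) (Ω : Set (Fin n → ℂ)) (hΩ : IsOpen Ω) (hc : IsConnected Ω)
    (hb : Bornology.IsBounded Ω) (hR : IsReinhardt Ω) (f : (Fin n → ℂ) → ℂ)
    (hf : DifferentiableOn ℂ f Ω) (hHS : IsHilbertSchmidtHankel Ω fun z => conj (f z)) :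
    (∃ c, ∀ z ∈ Ω, f z = c) ∧
      ∀ g, InA2 Ω g → InL2 Ω (fun z => conj (f z) * g z) →
        IsHankel Ω (fun z => conj (f z)) g (fun _ => 0) := by
  obtain ⟨hD, T, hTHS, hT⟩ := bridge hΩ hHS
  obtain ⟨c, hc'⟩ := Pool.Agent.N287.HS.symbol_const hn hΩ hc.isPreconnected hc.nonempty
    (Pool.Agent.N287.HS.compl_nonempty hn hb) hb
    (Pool.Agent.N287.HS.modInv_of_isReinhardt hR) hf hD hT hTHS
  refine ⟨⟨c, hc'⟩, fun g hg hfg => ⟨hg, hfg, MemLp.zero, ⟨fun z => conj c * g z,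
    ⟨hg.1.const_mul _, hg.2.const_mul _⟩, fun z hz => ?_⟩, fun q _ => ?_⟩⟩
  · change conj (f z) * g z = conj c * g z + 0
    rw [hc' z hz, add_zero]
  · simp [ip]

end Pool.Agent.Results.MP_dc9318_an.ReinhardtHilbertSchmidt
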